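import Mathlib
import Pool.Agent.Q182.SemilatticeDefs
import Pool.Agent.Q182.CSExample2

/-!
# A c-complete Hausdorff topological semilattice that is not s-complete
-/

namespace Pool.Agent.Results.MP_5a7388_gt.CNotS

open Q182

/-- There is a Hausdorff topological semilattice that is `c`-complete but not `s`-complete. -/
theorem result :
    ∃ (X : Type) (_ : SemilatticeInf X) (_ : TopologicalSpace X),
      ContinuousInf X ∧ T2Space X ∧ IsCComplete X ∧ ¬ IsSComplete X :=
  ⟨CS.X, inferInstance, inferInstance, inferInstance, inferInstance, CS.cComplete,
    CS.not_sComplete⟩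

end Pool.Agent.Results.MP_5a7388_gt.CNotS
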